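import Pool.Agent.K7.H69.LC.Stm

/-!
# Lucky cars in Stirling permutations: the number of lucky cars after an insertion (`StLucky`)
-/

set_option autoImplicit false

namespace Pool.Agent.K7.H15.LCLUCKY

open Pool.Agent.K7.H69.LC

theorem spot_spec (occ : Finset ℕ) (p : ℕ) : (p ≤ spot occ p ∧ spot occ p ∉ occ) ∧
    ∀ t, p ≤ t → t < spot occ p → t ∈ occ := by
  have hne : {s : ℕ | p ≤ s ∧ s ∉ occ}.Nonempty := by
    refine ⟨p + (occ.sup id + 1), by omega, ?_⟩
    intro h
    have := Finset.le_sup (f := id) h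
    simp only [id] at this
    omega
  refine ⟨Nat.sInf_mem hne, ?_⟩
  intro t ht hlt
  by_contra hc
  exact absurd (Nat.sInf_le (s := {s : ℕ | p ≤ s ∧ s ∉ occ}) ⟨ht, hc⟩) (by
    have : t < sInf {s : ℕ | p ≤ s ∧ s ∉ occ} := hlt
    omega)

theorem spot_eq {occ : Finset ℕ} {p s : ℕ} (h1 : p ≤ s) (h2 : s ∉ occ)
    (h3 : ∀ t, p ≤ t → t < s → t ∈ occ) : spot occ p = s := by
  obtain ⟨⟨h4, h5⟩, h6⟩ := spot_spec occ p
  rcases lt_trichotomy (spot occ p) s with h | h | h
  · exact absurd (h3 _ h4 h) h5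
  · exact h
  · exact absurd (h6 s h1 h) h2

/-- the street with `A` and the spots `n + 1, ..., n + j` occupied -/
def S (n : ℕ) (A : Finset ℕ) (j : ℕ) : Finset ℕ := A ∪ Finset.Ico (n + 1) (n + 1 + j)

theorem mem_S {n : ℕ} {A : Finset ℕ} {j t : ℕ} :
    t ∈ S n A j ↔ t ∈ A ∨ (n + 1 ≤ t ∧ t < n + 1 + j) := by
  simp [S]

theorem S_zero (n : ℕ) (A : Finset ℕ) : S n A 0 = A := by
  ext t
  rw [mem_S]
  constructor
  · rintro (h | h)
    · exact h
    · omega
  · exact Or.inl

theorem insert_low (n : ℕ) (A : Finset ℕ) (j s : ℕ) : insert s (S n A j) = S n (insert s A) j := by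
  ext t
  simp only [Finset.mem_insert, mem_S]
  tauto

theorem insert_high (n : ℕ) (A : Finset ℕ) (j : ℕ) :
    insert (n + 1 + j) (S n A j) = S n A (j + 1) := by
  ext t
  simp only [Finset.mem_insert, mem_S]
  constructor
  · rintro (h | h | h)
    · right; omega
    · left; exact h
    · right; omega
  · rintro (h | h)
    · right; left; exact h
    · by_cases h1 : t = n + 1 + j
      · left; exact h1
      · right; right; omega

theorem spot_low {n : ℕ} {A : Finset ℕ} {p : ℕ} (j : ℕ) (h : spot A p ≤ n) :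
    spot (S n A j) p = spot A p := by
  obtain ⟨⟨h4, h5⟩, h6⟩ := spot_spec A p
  apply spot_eq h4
  · rw [mem_S]
    rintro (h7 | h7)
    · exact h5 h7
    · omega
  · intro t ht hlt
    rw [mem_S]
    exact Or.inl (h6 t ht hlt)

theorem spot_high {n : ℕ} {A : Finset ℕ} {p : ℕ} (j : ℕ) (hA : ∀ a ∈ A, a ≤ n) (hp : p ≤ n + 1)
    (h : ¬ spot A p ≤ n) : spot (S n A j) p = n + 1 + j := by
  obtain ⟨⟨h4, h5⟩, h6⟩ := spot_spec A p
  apply spot_eq (by omega)
  · rw [mem_S]
    rintro (h7 | h7)
    · have := hA _ h7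
      omega
    · omega
  · intro t ht hlt
    rw [mem_S]
    by_cases h7 : t ≤ n
    · left
      exact h6 t ht (by omega)
    · right
      omega

theorem spot_top {n : ℕ} {A : Finset ℕ} (j : ℕ) (hA : ∀ a ∈ A, a ≤ n) :
    spot (S n A j) (n + 1) = n + 1 + j := by
  apply spot_high j hA le_rfl
  have := (spot_spec A (n + 1)).1.1
  omega

theorem insert_le {n : ℕ} {A : Finset ℕ} {s : ℕ} (hA : ∀ a ∈ A, a ≤ n) (hs : s ≤ n) :
    ∀ a ∈ insert s A, a ≤ n := by
  intro a ha
  rw [Finset.mem_insert] at ha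
  rcases ha with rfl | ha
  · exact hs
  · exact hA a ha

theorem lucky_indep (n : ℕ) (w : List ℕ) : ∀ (A : Finset ℕ) (j j' : ℕ), (∀ p ∈ w, p ≤ n) →
    (∀ a ∈ A, a ≤ n) → lucky (S n A j) w = lucky (S n A j') w := by
  induction w with
  | nil => intro A j j' _ _; simp [lucky]
  | cons p w ih =>
    intro A j j' hw hA
    have hp : p ≤ n := hw p (by simp)
    have hw' : ∀ q ∈ w, q ≤ n := fun q hq => hw q (List.mem_cons_of_mem _ hq)
    simp only [lucky]
    by_cases h : spot A p ≤ n
    · rw [spot_low j h, spot_low j' h, insert_low, insert_low,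
        ih _ j j' hw' (insert_le hA h)]
    · rw [spot_high j hA (by omega) h, spot_high j' hA (by omega) h, insert_high, insert_high,
        ih A (j + 1) (j' + 1) hw' hA, if_neg (by omega), if_neg (by omega)]

theorem code_low {n : ℕ} {A : Finset ℕ} {p : ℕ} {x : List ℕ} (h : spot A p ≤ n) :
    (code n A (p :: x)).all id = (code n (insert (spot A p) A) x).all id := by
  simp only [code]
  rw [if_pos h]
  simp

theorem code_high {n : ℕ} {A : Finset ℕ} {p : ℕ} {x : List ℕ} (h : ¬ spot A p ≤ n) :
    (code n A (p :: x)).all id = false := by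
  simp only [code]
  rw [if_neg h]
  simp

theorem lucky_put (n : ℕ) (y : List ℕ) (hy : ∀ p ∈ y, p ≤ n) (x : List ℕ) :
    ∀ (A : Finset ℕ) (j : ℕ), (∀ p ∈ x, p ≤ n) → (∀ a ∈ A, a ≤ n) →
    lucky (S n A j) (x ++ (n + 1) :: (n + 1) :: y) = lucky (S n A j) (x ++ y) +
      (if j = 0 ∧ (code n A x).all id = true then 1 else 0) := by
  induction x with
  | nil =>
    intro A j _ hA
    simp only [List.nil_append, lucky, code, List.all_nil, and_true]
    rw [spot_top j hA, insert_high, spot_top (j + 1) hA, insert_high,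
      lucky_indep n y A (j + 1 + 1) j hy hA, if_neg (by omega : ¬ (n + 1 + (j + 1) = n + 1))]
    by_cases hj : j = 0
    · rw [if_pos (by omega), if_pos hj]
      omega
    · rw [if_neg (by omega), if_neg hj]
      omega
  | cons p x ih =>
    intro A j hx hA
    have hp : p ≤ n := hx p (by simp)
    have hx' : ∀ q ∈ x, q ≤ n := fun q hq => hx q (List.mem_cons_of_mem _ hq)
    simp only [List.cons_append, lucky]
    by_cases h : spot A p ≤ n
    · rw [spot_low j h, insert_low, ih _ j hx' (insert_le hA h), code_low h]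
      omega
    · rw [spot_high j hA (by omega) h, insert_high, ih A (j + 1) hx' hA, code_high h,
        if_neg (by omega : ¬ (n + 1 + j = p))]
      simp

theorem code_take (n : ℕ) (w : List ℕ) : ∀ (A : Finset ℕ) (g : ℕ),
    (code n A w).take g = code n A (w.take g) := by
  induction w with
  | nil => intro A g; simp [code]
  | cons p w ih =>
    intro A g
    cases g with
    | zero => simp [code]
    | succ g =>
      simp only [code, List.take_succ_cons]
      by_cases h : spot A p ≤ n
      · rw [if_pos h, if_pos h, List.take_succ_cons, ih]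
      · rw [if_neg h, if_neg h, List.take_succ_cons, ih]

theorem t : StLucky := by
  intro n w g hw _
  have h := lucky_put n (w.drop g) (fun p hp => hw p (List.mem_of_mem_drop hp)) (w.take g) ∅ 0
    (fun p hp => hw p (List.mem_of_mem_take hp)) (by simp)
  rw [S_zero, List.take_append_drop] at h
  rw [code_take]
  simpa [put] using h

end Pool.Agent.K7.H15.LCLUCKY
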